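import Mathlib

/-!
Real zero polynomials and the substitutions of the amalgamation problem.
-/

namespace Pool.Agent.H189Z.RZ

open MvPolynomial

/-- `f` is a real zero polynomial: for every real vector `a` and complex `l` with
`f (l a) = 0`, the number `l` is real. -/
def IsRealZero {σ : Type} (f : MvPolynomial σ ℝ) : Prop :=
  ∀ (a : σ → ℝ) (l : ℂ), aeval (fun i => l * (a i : ℂ)) f = 0 → l.im = 0

/-- `p(x, 0)`: the variables of the second block are set to zero. -/
noncomputable def killRight {α β : Type} (p : MvPolynomial (α ⊕ β) ℝ) : MvPolynomial α ℝ :=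
  aeval (Sum.elim (fun i => X i) (fun _ => 0)) p

/-- `r(x, y, 0)`: the variables of the third block are set to zero. -/
noncomputable def killZ {α β γ : Type} (r : MvPolynomial (α ⊕ β ⊕ γ) ℝ) :
    MvPolynomial (α ⊕ β) ℝ :=
  aeval (Sum.elim (fun i => X (Sum.inl i))
    (Sum.elim (fun j => X (Sum.inr j)) (fun _ => 0))) r

/-- `r(x, 0, z)`: the variables of the second block are set to zero. -/
noncomputable def killY {α β γ : Type} (r : MvPolynomial (α ⊕ β ⊕ γ) ℝ) :
    MvPolynomial (α ⊕ γ) ℝ :=
  aeval (Sum.elim (fun i => X (Sum.inl i))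
    (Sum.elim (fun _ => 0) (fun k => X (Sum.inr k)))) r

end Pool.Agent.H189Z.RZ
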