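import Pool.Agent.H189Z.RZDefs

namespace Pool.Agent.H189Z.RZ

open MvPolynomial

theorem newton (c0 c1 c2 c3 : ℝ)
    (h : ∀ l : ℂ, (c0 : ℂ) + c1 * l + c2 * l ^ 2 + c3 * l ^ 3 = 0 → l.im = 0) :
    3 * c1 * c3 ≤ c2 ^ 2 := by
  by_cases h3 : c3 = 0
  · subst h3; nlinarith [sq_nonneg c2]
  have hex : ∃ l : ℂ, (c0 : ℂ) + c1 * l + c2 * l ^ 2 + c3 * l ^ 3 = 0 := by
    let P : Polynomial ℂ := Polynomial.C (c3 : ℂ) * Polynomial.X ^ 3 +
      Polynomial.C (c2 : ℂ) * Polynomial.X ^ 2 + Polynomial.C (c1 : ℂ) * Polynomial.X +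
      Polynomial.C (c0 : ℂ)
    have hd : P.degree = 3 := Polynomial.degree_cubic (by exact_mod_cast h3)
    obtain ⟨z, hz⟩ := Complex.exists_root (f := P) (by rw [hd]; norm_num)
    refine ⟨z, ?_⟩
    have := hz
    simp [P, Polynomial.IsRoot] at this
    linear_combination this
  obtain ⟨z, hz⟩ := hex
  have hzi := h z hz
  obtain ⟨α, rfl⟩ : ∃ α : ℝ, z = α := ⟨z.re, by apply Complex.ext <;> simp [hzi]⟩
  have h0 : c0 + c1 * α + c2 * α ^ 2 + c3 * α ^ 3 = 0 := by exact_mod_cast hz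
  set b := c2 + α * c3 with hb
  set c := c1 + α * b with hc
  have hdisc : 4 * c3 * c ≤ b ^ 2 := by
    by_contra hlt
    push Not at hlt
    set s := Real.sqrt (4 * c3 * c - b ^ 2) with hs
    have hs2 : s ^ 2 = 4 * c3 * c - b ^ 2 := Real.sq_sqrt (by linarith)
    have hspos : 0 < s := Real.sqrt_pos.mpr (by linarith)
    have h3c : (c3 : ℂ) ≠ 0 := by exact_mod_cast h3
    let l : ℂ := ((-b / (2 * c3) : ℝ) : ℂ) + ((s / (2 * c3) : ℝ) : ℂ) * Complex.I
    have hq : (c3 : ℂ) * l ^ 2 + b * l + c = 0 := by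
      have hs2c : (s : ℂ) ^ 2 = 4 * c3 * c - b ^ 2 := by exact_mod_cast hs2
      simp only [l]
      push_cast
      field_simp
      linear_combination (s : ℂ) ^ 2 * Complex.I_sq - hs2c
    have hl : (c0 : ℂ) + c1 * l + c2 * l ^ 2 + c3 * l ^ 3 = 0 := by
      have h0c : (c0 : ℂ) + c1 * α + c2 * α ^ 2 + c3 * α ^ 3 = 0 := hz
      have hbc : (b : ℂ) = c2 + α * c3 := by rw [hb]; push_cast; ring
      have hcc : (c : ℂ) = c1 + α * b := by rw [hc]; push_cast; ring
      rw [hbc] at hcc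
      rw [hcc, hbc] at hq
      linear_combination (l - α) * hq + h0c
    have := h l hl
    have hli : l.im = s / (2 * c3) := by
      simp only [l, Complex.add_im, Complex.ofReal_im, Complex.mul_im, Complex.ofReal_re,
        Complex.I_im, Complex.I_re]
      ring
    rw [hli, div_eq_zero_iff] at this
    rcases this with h1 | h1
    · linarith
    · exact h3 (by linarith)
  have e1 : c2 = b - α * c3 := by rw [hb]; ring
  have e2 : c1 = c - α * b := by rw [hc]; ring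
  rw [e1, e2]
  nlinarith [sq_nonneg (b / 2 + α * c3)]

theorem quad0 (β γ δ : ℝ) (h : ∀ e : ℝ, 0 ≤ β * e ^ 2 + γ * e ^ 3 + δ * e ^ 4) : 0 ≤ β := by
  have hc : Continuous fun e : ℝ => β + γ * e + δ * e ^ 2 := by fun_prop
  have ht : Filter.Tendsto (fun e : ℝ => β + γ * e + δ * e ^ 2) (nhdsWithin 0 (Set.Ioi 0))
      (nhds β) := by
    have := (hc.tendsto 0).mono_left (nhdsWithin_le_nhds (s := Set.Ioi 0))
    simpa using this
  refine ge_of_tendsto ht ?_
  filter_upwards [self_mem_nhdsWithin] with e he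
  have he' : (0 : ℝ) < e := he
  have h1 := h e
  have : 0 ≤ e ^ 2 * (β + γ * e + δ * e ^ 2) := by nlinarith
  exact nonneg_of_mul_nonneg_right this (by positivity) |> fun h => by
    by_contra hn
    push Not at hn
    have := mul_neg_of_pos_of_neg (show (0:ℝ) < e ^ 2 by positivity) hn
    linarith

theorem lin0 (α β γ δ : ℝ) (h : ∀ e : ℝ, 0 ≤ α * e + β * e ^ 2 + γ * e ^ 3 + δ * e ^ 4) :
    α = 0 := by
  have hd : HasDerivAt (fun e : ℝ => α * e + β * e ^ 2 + γ * e ^ 3 + δ * e ^ 4) α 0 := by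
    have := ((((hasDerivAt_id (0:ℝ)).const_mul α).add
      ((hasDerivAt_pow 2 (0:ℝ)).const_mul β)).add ((hasDerivAt_pow 3 (0:ℝ)).const_mul γ)).add
      ((hasDerivAt_pow 4 (0:ℝ)).const_mul δ)
    have e1 : α * 1 + β * (((2:ℕ):ℝ) * 0 ^ (2 - 1)) + γ * (((3:ℕ):ℝ) * 0 ^ (3 - 1)) +
        δ * (((4:ℕ):ℝ) * 0 ^ (4 - 1)) = α := by simp
    rw [e1] at this
    exact this
  refine IsLocalMin.hasDerivAt_eq_zero ?_ hd
  refine Filter.Eventually.of_forall fun e => ?_
  simpa using h e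

theorem no_params (m0 m1 m2 m3 m4 : ℝ)
    (N : ∀ x1 x2 Y Z : ℝ, 3 * (11 * (x1 + x2) + 3 * Y + 4 * Z) *
      (4 * (x1 * x2) * (x1 + x2 + Y + Z) + Y * Z * (m1 * x1 + m2 * x2 + m3 * Y + m4 * Z)) ≤
      (4 * (x1 + x2) ^ 2 + 8 * (x1 * x2) + 4 * (x1 + x2) * (Y + Z) + m0 * Y * Z) ^ 2) : False := by
  have h3 : m3 = 0 := by
    have := lin0 (-9 * m3) (m0 ^ 2 - 9 * m4 - 12 * m3) (-12 * m4) 0 (fun e => by
      have := N 0 0 1 e; nlinarith)
    linarith
  have h4 : m4 = 0 := by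
    have := lin0 (-12 * m4) (m0 ^ 2 - 9 * m4 - 12 * m3) (-9 * m3) 0 (fun e => by
      have := N 0 0 e 1; nlinarith)
    linarith
  subst h3 h4
  have h1 : m1 = 0 := by
    have := lin0 (21 * m1) ((4 - m0) ^ 2 + 9 * m1) 0 0 (fun e => by
      have := N 1 0 e (-1); nlinarith)
    linarith
  have h2 : m2 = 0 := by
    have := lin0 (21 * m2) ((4 - m0) ^ 2 + 9 * m2) 0 0 (fun e => by
      have := N 0 1 e (-1); nlinarith)
    linarith
  subst h1 h2
  have h0 : m0 = 0 := by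
    have := quad0 (-36 * m0 ^ 2)
      (-12 * m0 ^ 2 * (22 * m0 - 32) - 36 * m0 ^ 2 * (2 * m0 - 8))
      ((24 * m0 ^ 2 - 64 * m0) ^ 2 - 12 * m0 ^ 2 * (22 * m0 - 32) * (2 * m0 - 8)) (fun e => by
      have := N (e * m0) (e * m0) 1 (e * (-8)); nlinarith)
    nlinarith [sq_nonneg m0]
  subst h0
  have := N 1 1 (-10) 10
  norm_num at this

abbrev V4 := Fin 2 ⊕ Fin 1 ⊕ Fin 1

noncomputable def E (i j k l : ℕ) : V4 →₀ ℕ :=
  Finsupp.single (Sum.inl 0) i + Finsupp.single (Sum.inl 1) j +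
    Finsupp.single (Sum.inr (Sum.inl 0)) k + Finsupp.single (Sum.inr (Sum.inr 0)) l

theorem E_a (i j k l : ℕ) : E i j k l (Sum.inl 0) = i := by simp [E]
theorem E_b (i j k l : ℕ) : E i j k l (Sum.inl 1) = j := by simp [E]
theorem E_y (i j k l : ℕ) : E i j k l (Sum.inr (Sum.inl 0)) = k := by simp [E]
theorem E_z (i j k l : ℕ) : E i j k l (Sum.inr (Sum.inr 0)) = l := by simp [E]

theorem E_eta (s : V4 →₀ ℕ) :
    s = E (s (Sum.inl 0)) (s (Sum.inl 1)) (s (Sum.inr (Sum.inl 0))) (s (Sum.inr (Sum.inr 0))) := by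
  ext v
  rcases v with v | v | v <;> fin_cases v <;> simp [E]

theorem expand (r : MvPolynomial V4 ℝ) (hr : r.totalDegree ≤ 3) (v : V4 → ℂ) :
    aeval v r = ∑ i ∈ Finset.range 4, ∑ j ∈ Finset.range 4, ∑ k ∈ Finset.range 4,
      ∑ l ∈ Finset.range 4, if i + j + k + l ≤ 3 then
        ((coeff (E i j k l) r : ℝ) : ℂ) * (v (Sum.inl 0) ^ i * v (Sum.inl 1) ^ j *
          v (Sum.inr (Sum.inl 0)) ^ k * v (Sum.inr (Sum.inr 0)) ^ l) else 0 := by
  classical
  let T : Finset (ℕ × ℕ × ℕ × ℕ) :=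
    (Finset.range 4 ×ˢ Finset.range 4 ×ˢ Finset.range 4 ×ˢ Finset.range 4).filter
      fun t => t.1 + t.2.1 + t.2.2.1 + t.2.2.2 ≤ 3
  let g : ℕ × ℕ × ℕ × ℕ → (V4 →₀ ℕ) := fun t => E t.1 t.2.1 t.2.2.1 t.2.2.2
  have ginj : Function.Injective g := by
    rintro ⟨i, j, k, l⟩ ⟨i', j', k', l'⟩ h
    have h1 := congrArg (fun s => s (Sum.inl 0)) h
    have h2 := congrArg (fun s => s (Sum.inl 1)) h
    have h3 := congrArg (fun s => s (Sum.inr (Sum.inl 0))) h
    have h4 := congrArg (fun s => s (Sum.inr (Sum.inr 0))) h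
    simp only [g, E_a, E_b, E_y, E_z] at h1 h2 h3 h4
    simp [h1, h2, h3, h4]
  have hsub : r.support ⊆ T.image g := by
    intro s hs
    have hle : (s.sum fun _ e => e) ≤ 3 := (le_totalDegree hs).trans hr
    rw [Finsupp.sum_fintype _ _ (fun _ => rfl)] at hle
    simp only [Fintype.sum_sum_type, Fin.sum_univ_two, Finset.univ_unique, Finset.sum_singleton,
      Fin.default_eq_zero] at hle
    refine Finset.mem_image.mpr ⟨(s (Sum.inl 0), s (Sum.inl 1), s (Sum.inr (Sum.inl 0)),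
      s (Sum.inr (Sum.inr 0))), ?_, (E_eta s).symm⟩
    simp only [T, Finset.mem_filter, Finset.mem_product, Finset.mem_range]
    omega
  rw [aeval_def, eval₂_eq']
  rw [Finset.sum_subset hsub (fun s _ hs => by simp [notMem_support_iff.mp hs])]
  rw [Finset.sum_image (fun a _ b _ h => ginj h)]
  simp only [T, Finset.sum_filter, Finset.sum_product]
  refine Finset.sum_congr rfl fun i _ => Finset.sum_congr rfl fun j _ =>
    Finset.sum_congr rfl fun k _ => Finset.sum_congr rfl fun l _ => ?_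
  split_ifs
  · simp [g, Fintype.prod_sum_type, Fin.prod_univ_two, E_a, E_b, E_y, E_z, mul_assoc]
  · rfl

def vec (a b y z : ℂ) : V4 → ℂ := Sum.elim ![a, b] (Sum.elim ![y] ![z])

theorem shape (r : MvPolynomial V4 ℝ) (hr : r.totalDegree ≤ 3) :
    ∃ m0 m1 m2 m3 m4 : ℝ, ∀ a b y z : ℂ,
      aeval (vec a b y z) r = aeval (vec a b y 0) r + aeval (vec a b 0 z) r
        - aeval (vec a b 0 0) r + y * z * (m0 + m1 * a + m2 * b + m3 * y + m4 * z) := by
  refine ⟨coeff (E 0 0 1 1) r, coeff (E 1 0 1 1) r, coeff (E 0 1 1 1) r, coeff (E 0 0 2 1) r,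
    coeff (E 0 0 1 2) r, fun a b y z => ?_⟩
  simp only [expand r hr, Finset.sum_range_succ, Finset.sum_range_zero, vec]
  norm_num
  ring

abbrev V3 := Fin 2 ⊕ Fin 1

noncomputable def pp : MvPolynomial V3 ℝ :=
  (4 * (1 + X (Sum.inl 0)) * (1 + X (Sum.inl 1)) - 1) *
    (2 + X (Sum.inl 0) + X (Sum.inl 1) + X (Sum.inr 0))

noncomputable def qq : MvPolynomial V3 ℝ :=
  4 * (1 + X (Sum.inl 0)) * (1 + X (Sum.inl 1)) *
    (2 + X (Sum.inl 0) + X (Sum.inl 1) + X (Sum.inr 0)) - (2 + X (Sum.inl 0) + X (Sum.inl 1))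

theorem lin_real (x : ℝ) (c : ℝ) (hc : c ≠ 0) (l : ℂ) (h : (c : ℂ) + l * x = 0) : l.im = 0 := by
  have h1 := congrArg Complex.re h
  have h2 := congrArg Complex.im h
  simp at h1 h2
  rcases h2 with h2 | h2
  · exact h2
  · subst h2; simp at h1; exact absurd h1 hc

theorem pp_rz : IsRealZero pp := by
  intro a l h
  simp only [pp, map_mul, map_sub, map_add, aeval_X, map_one, map_ofNat] at h
  rcases mul_eq_zero.mp h with h | h
  · by_contra hw
    have h1 := congrArg Complex.re h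
    have h2 := congrArg Complex.im h
    simp at h1 h2
    set x1 := a (Sum.inl 0)
    set x2 := a (Sum.inl 1)
    set u := l.re
    set w := l.im
    have h3 : x1 + x2 + 2 * x1 * x2 * u = 0 := by
      have : w * (x1 + x2 + 2 * x1 * x2 * u) = 0 := by linarith
      exact (mul_eq_zero.mp this).resolve_left hw
    have h4 : x1 * x2 * (u ^ 2 + w ^ 2) = 3 / 4 := by
      linear_combination (-1 / 4 : ℝ) * h1 + u * h3
    have hw2 : 0 < w ^ 2 := by positivity
    have h5 : 0 < x1 * x2 := by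
      by_contra hn
      push Not at hn
      nlinarith [sq_nonneg u]
    have h6 : x1 * x2 * u ^ 2 < 1 := by nlinarith
    have h7 : (x1 + x2) ^ 2 = 4 * (x1 * x2) * (x1 * x2 * u ^ 2) := by
      have : x1 + x2 = -2 * x1 * x2 * u := by linarith
      rw [this]; ring
    nlinarith [sq_nonneg (x1 - x2)]
  · refine lin_real (a (Sum.inl 0) + a (Sum.inl 1) + a (Sum.inr 0)) 2 (by norm_num) l ?_
    push_cast
    linear_combination h

theorem qq_rz : IsRealZero qq := by
  intro a l h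
  simp only [qq, map_mul, map_sub, map_add, aeval_X, map_one, map_ofNat] at h
  by_contra hw
  set x1 := a (Sum.inl 0)
  set x2 := a (Sum.inl 1)
  set z := a (Sum.inr 0)
  have gen : ∀ u1 u2 u3 : ℂ, 2 * (1 + l * x1) * u1 + u3 = 0 → 2 * (1 + l * x2) * u2 + u3 = 0 →
      u1 + u2 + 2 * (2 + l * (x1 + x2 + z)) * u3 = 0 → u2 = 0 := by
    intro u1 u2 u3 e1 e2 e3
    have key : 2 * (1 + l * x1) * (u1 * (starRingEnd ℂ) u1) +
        2 * (1 + l * x2) * (u2 * (starRingEnd ℂ) u2) +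
        2 * (2 + l * (x1 + x2 + z)) * (u3 * (starRingEnd ℂ) u3) +
        (u3 * (starRingEnd ℂ) u1 + u3 * (starRingEnd ℂ) u2 +
          (u1 + u2) * (starRingEnd ℂ) u3) = 0 := by
      linear_combination (starRingEnd ℂ) u1 * e1 + (starRingEnd ℂ) u2 * e2 +
        (starRingEnd ℂ) u3 * e3
    simp only [Complex.mul_conj] at key
    have h1 := congrArg Complex.re key
    have h2 := congrArg Complex.im key
    simp [Complex.normSq_apply] at h1 h2
    have h3 : x1 * (u1.re * u1.re + u1.im * u1.im) + x2 * (u2.re * u2.re + u2.im * u2.im) +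
        (x1 + x2 + z) * (u3.re * u3.re + u3.im * u3.im) = 0 := by
      have : l.im * (x1 * (u1.re * u1.re + u1.im * u1.im) + x2 * (u2.re * u2.re + u2.im * u2.im) +
        (x1 + x2 + z) * (u3.re * u3.re + u3.im * u3.im)) = 0 := by linarith
      exact (mul_eq_zero.mp this).resolve_left hw
    have h4 : (u1.re * u1.re + u1.im * u1.im) + (u2.re * u2.re + u2.im * u2.im) +
        2 * (u3.re * u3.re + u3.im * u3.im) +
        (u3.re * u1.re + u3.im * u1.im + u3.re * u2.re + u3.im * u2.im) = 0 := by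
      have : l.re * (x1 * (u1.re * u1.re + u1.im * u1.im) + x2 * (u2.re * u2.re + u2.im * u2.im) +
        (x1 + x2 + z) * (u3.re * u3.re + u3.im * u3.im)) = 0 := by rw [h3]; ring
      linarith
    have h5 : u2.re * u2.re + u2.im * u2.im ≤ 0 := by
      nlinarith [sq_nonneg (u1.re + u3.re), sq_nonneg (u1.im + u3.im), sq_nonneg (u2.re + u3.re),
        sq_nonneg (u2.im + u3.im), sq_nonneg u1.re, sq_nonneg u1.im, sq_nonneg u3.re,
        sq_nonneg u3.im]
    apply Complex.ext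
    · simp; nlinarith [sq_nonneg u2.re, sq_nonneg u2.im]
    · simp; nlinarith [sq_nonneg u2.re, sq_nonneg u2.im]
  have := gen (-(1 + l * x2)) (-(1 + l * x1)) (2 * (1 + l * x1) * (1 + l * x2)) (by ring)
    (by ring) (by linear_combination h)
  exact hw (lin_real x1 1 one_ne_zero l (by push_cast; linear_combination -this))

theorem deg_X1 (v : V3) : (1 + X v : MvPolynomial V3 ℝ).totalDegree ≤ 1 :=
  (totalDegree_add _ _).trans (by simp)

theorem deg_nat (n : ℕ) [n.AtLeastTwo] :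
    (OfNat.ofNat n : MvPolynomial V3 ℝ).totalDegree = 0 := by
  have : (OfNat.ofNat n : MvPolynomial V3 ℝ) = C (OfNat.ofNat n : ℝ) := by
    rw [map_ofNat]
  rw [this, totalDegree_C]

theorem deg_ab : (4 * (1 + X (Sum.inl 0)) * (1 + X (Sum.inl 1)) :
    MvPolynomial V3 ℝ).totalDegree ≤ 2 := by
  refine (totalDegree_mul _ _).trans ?_
  have h1 := totalDegree_mul (4 : MvPolynomial V3 ℝ) (1 + X (Sum.inl 0))
  have h2 := deg_X1 (Sum.inl 0)
  have h3 := deg_X1 (Sum.inl 1)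
  have h4 : (4 : MvPolynomial V3 ℝ).totalDegree = 0 := deg_nat 4
  omega

theorem deg_s2 : (2 + X (Sum.inl 0) + X (Sum.inl 1) : MvPolynomial V3 ℝ).totalDegree ≤ 1 := by
  refine (totalDegree_add _ _).trans (max_le ((totalDegree_add _ _).trans (max_le ?_ ?_)) ?_)
  · rw [deg_nat 2]; norm_num
  · simp
  · simp

theorem deg_s3 : (2 + X (Sum.inl 0) + X (Sum.inl 1) + X (Sum.inr 0) :
    MvPolynomial V3 ℝ).totalDegree ≤ 1 :=
  (totalDegree_add _ _).trans (max_le deg_s2 (by simp))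

theorem pp_deg : pp.totalDegree ≤ 3 := by
  refine (totalDegree_mul _ _).trans ?_
  have h1 := totalDegree_sub (4 * (1 + X (Sum.inl 0)) * (1 + X (Sum.inl 1)) :
    MvPolynomial V3 ℝ) 1
  have h2 := deg_ab
  have h3 := deg_s3
  simp only [totalDegree_one] at h1
  omega

theorem qq_deg : qq.totalDegree ≤ 3 := by
  refine (totalDegree_sub _ _).trans (max_le ((totalDegree_mul _ _).trans ?_) ?_)
  · have h2 := deg_ab
    have h3 := deg_s3
    omega
  · exact deg_s2.trans (by norm_num)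

theorem agree : killRight pp = killRight qq := by
  simp only [killRight, pp, qq, map_mul, map_sub, map_add, aeval_X, map_one, map_ofNat,
    Sum.elim_inl, Sum.elim_inr]
  ring

theorem eval_killZ (r : MvPolynomial V4 ℝ) (a b y : ℂ) :
    aeval (vec a b y 0) r = aeval (Sum.elim ![a, b] ![y]) (killZ r) := by
  rw [killZ, ← AlgHom.comp_apply, comp_aeval]
  congr 2
  ext v
  rcases v with v | v | v <;> fin_cases v <;> simp [vec]

theorem eval_killY (r : MvPolynomial V4 ℝ) (a b z : ℂ) :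
    aeval (vec a b 0 z) r = aeval (Sum.elim ![a, b] ![z]) (killY r) := by
  rw [killY, ← AlgHom.comp_apply, comp_aeval]
  congr 2
  ext v
  rcases v with v | v | v <;> fin_cases v <;> simp [vec]

theorem no_amalgam : ¬ ∃ r : MvPolynomial V4 ℝ, IsRealZero r ∧ r.totalDegree ≤ 3 ∧
    killZ r = pp ∧ killY r = qq := by
  rintro ⟨r, hrz, hd, hp, hq⟩
  obtain ⟨m0, m1, m2, m3, m4, hs⟩ := shape r hd
  refine no_params m0 m1 m2 m3 m4 fun x1 x2 Y Z => ?_
  refine newton 6 _ _ _ fun l hl => ?_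
  refine hrz (Sum.elim ![x1, x2] (Sum.elim ![Y] ![Z])) l ?_
  have hv : (fun i => l * ((Sum.elim ![x1, x2] (Sum.elim ![Y] ![Z]) i : ℝ) : ℂ)) =
      vec (l * x1) (l * x2) (l * Y) (l * Z) := by
    ext v
    rcases v with v | v | v <;> fin_cases v <;> simp [vec]
  rw [hv, hs, eval_killZ, eval_killY, eval_killZ, hp, hq]
  simp only [pp, qq, map_mul, map_sub, map_add, aeval_X, map_one, map_ofNat,
    Sum.elim_inl, Sum.elim_inr, Matrix.cons_val_zero, Matrix.cons_val_one]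
  push_cast at hl
  linear_combination hl

end Pool.Agent.H189Z.RZ
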